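import Mathlib

/-!
Regularity of symbolic powers of initial ideals of binomial edge ideals: definitions.
-/

open MvPolynomial Filter Topology

namespace Q37.BinReg

universe u

/-! ### Castelnuovo-Mumford regularity -/

/-- The Koszul differential of the variables; the chain `f` stands for `∑ f T e_T`. -/
noncomputable def koszulD {σ : Type} [Fintype σ] [LinearOrder σ] {K : Type u} [Field K]
    (f : Finset σ → MvPolynomial σ K) (T : Finset σ) : MvPolynomial σ K :=
  ∑ t ∈ Finset.univ \ T,
    (-1 : MvPolynomial σ K) ^ (T.filter (· < t)).card * X t * f (insert t T)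

/-- `HasTor J i d`: the Koszul homology `H_i(variables; J) = Tor_i(J, K)` is nonzero in internal
degree `i + d`, that is, there is a Koszul `i`-cycle with coefficients forms of degree `d` in `J`
which is not the boundary of an `(i+1)`-chain with coefficients in `J`. -/
def HasTor {σ : Type} [Fintype σ] [LinearOrder σ] {K : Type u} [Field K]
    (J : Ideal (MvPolynomial σ K)) (i d : ℕ) : Prop :=
  ∃ f : Finset σ → MvPolynomial σ K,
    (∀ T, T.card ≠ i → f T = 0) ∧ (∀ T, f T ∈ J ∧ (f T).IsHomogeneous d) ∧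
    (∀ T, koszulD f T = 0) ∧
    ¬ ∃ g : Finset σ → MvPolynomial σ K,
      (∀ T, T.card ≠ i + 1 → g T = 0) ∧ (∀ T, g T ∈ J) ∧ ∀ T, f T = koszulD g T

/-- The Castelnuovo-Mumford regularity `max {j - i : Tor_i(J, K)_j ≠ 0}`. -/
noncomputable def reg {σ : Type} [Fintype σ] [LinearOrder σ] {K : Type u} [Field K]
    (J : Ideal (MvPolynomial σ K)) : ℕ∞ :=
  ⨆ (d : ℕ) (_ : ∃ i, HasTor J i d), (d : ℕ∞)

/-! ### Symbolic powers -/

/-- The symbolic power `I^(m) = ⋂ P^(m)` over the minimal primes `P` of `I`, where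
`P^(m) = {r : r q ∈ P^m for some q ∉ P}`. -/
def symbolicPower {R : Type u} [CommRing R] (I : Ideal R) (m : ℕ) : Ideal R where
  carrier := {r | ∀ P ∈ I.minimalPrimes, ∃ q, q ∉ P ∧ r * q ∈ P ^ m}
  zero_mem' := by
    intro P hP
    refine ⟨1, ?_, by simp⟩
    intro h
    exact (hP.1.1).ne_top ((Ideal.eq_top_iff_one P).2 h)
  add_mem' := by
    intro a b ha hb P hP
    obtain ⟨q, hq, hqa⟩ := ha P hP
    obtain ⟨q', hq', hqb⟩ := hb P hP
    refine ⟨q * q', ?_, ?_⟩
    · intro h
      rcases (hP.1.1).mem_or_mem h with h | h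
      · exact hq h
      · exact hq' h
    · have e : (a + b) * (q * q') = (a * q) * q' + (b * q') * q := by ring
      rw [e]
      exact Ideal.add_mem _ (Ideal.mul_mem_right _ _ hqa) (Ideal.mul_mem_right _ _ hqb)
  smul_mem' := by
    intro c a ha P hP
    obtain ⟨q, hq, hqa⟩ := ha P hP
    refine ⟨q, hq, ?_⟩
    have e : c • a * q = c * (a * q) := by rw [smul_eq_mul]; ring
    rw [e]
    exact Ideal.mul_mem_left _ _ hqa

/-- `lim reg (I^(m)) / m = L`. -/
def HasAsymptoticReg {σ : Type} [Fintype σ] [LinearOrder σ] {K : Type u} [Field K]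
    (I : Ideal (MvPolynomial σ K)) (L : ℕ) : Prop :=
  Tendsto (fun m : ℕ => ((reg (symbolicPower I m) : ℕ∞) : ENNReal) / (m : ENNReal)) atTop
    (𝓝 (L : ENNReal))

/-! ### Binomial edge ideals -/

/-- The variables `x_0, …, x_{n-1}, y_0, …, y_{n-1}`, in this order. -/
abbrev Var (n : ℕ) : Type := Fin n ⊕ₗ Fin n

/-- The variable `x_i`. -/
noncomputable def x (K : Type u) [Field K] {n : ℕ} (i : Fin n) : MvPolynomial (Var n) K :=
  X (Sum.inlₗ i)

/-- The variable `y_i`. -/
noncomputable def y (K : Type u) [Field K] {n : ℕ} (i : Fin n) : MvPolynomial (Var n) K :=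
  X (Sum.inrₗ i)

/-- The binomial edge ideal `J_G = (x_i y_j - x_j y_i : {i, j} ∈ E(G))`. -/
noncomputable def binomialEdgeIdeal (K : Type u) [Field K] {n : ℕ} (G : SimpleGraph (Fin n)) :
    Ideal (MvPolynomial (Var n) K) :=
  Ideal.span {f | ∃ i j, i < j ∧ G.Adj i j ∧ f = x K i * y K j - x K j * y K i}

/-- The initial ideal for the lexicographic order with `x_0 > x_1 > ⋯ > y_0 > y_1 > ⋯`. -/
noncomputable def initialIdeal {K : Type u} [Field K] {n : ℕ}
    (I : Ideal (MvPolynomial (Var n) K)) : Ideal (MvPolynomial (Var n) K) :=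
  Ideal.span {g | ∃ f ∈ I, f ≠ 0 ∧ g = monomial (MonomialOrder.lex.degree f) 1}

/-- The sequence `l` is a path in `G`: its vertices are distinct and consecutive ones are
adjacent. -/
def IsPathSeq {n : ℕ} (G : SimpleGraph (Fin n)) (l : List (Fin n)) : Prop :=
  l.Nodup ∧ l.IsChain G.Adj

/-- `i, L, j` is an admissible path from `i` to `j`, `i < j`: it is a path, every interior vertex
`v` (the elements of `L`) satisfies `v < i` or `v > j`, and for no proper subset
`{j_1, …, j_s}` of the set of interior vertices is `i, j_1, …, j_s, j` a path. -/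
def IsAdmissible {n : ℕ} (G : SimpleGraph (Fin n)) (i j : Fin n) (L : List (Fin n)) : Prop :=
  i < j ∧ IsPathSeq G (i :: (L ++ [j])) ∧ (∀ v ∈ L, v < i ∨ j < v) ∧
    ∀ M : List (Fin n), M.toFinset ⊂ L.toFinset → ¬ IsPathSeq G (i :: (M ++ [j]))

/-- The lengths (numbers of vertices) of the admissible paths of `G`. -/
def admissibleLengths {n : ℕ} (G : SimpleGraph (Fin n)) : Set ℕ :=
  {l | ∃ i j L, IsAdmissible G i j L ∧ l = L.length + 2}

end Q37.BinReg
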