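import Pool.Agent.Q37.BinReg.Defs
import Pool.Agent.Q37.VNum.Order

/-! Monomial primes containing the initial ideal of a binomial edge ideal. -/

open MvPolynomial

namespace Q37.BinReg

universe u

variable {K : Type u} [Field K] {n m : ℕ}

theorem prod_var {M : Type*} [CommMonoid M] (F : Var n → M) :
    ∏ v, F v = (∏ i, F (Sum.inlₗ i)) * ∏ i, F (Sum.inrₗ i) := by
  rw [← Equiv.prod_comp (toLex : (Fin n ⊕ Fin n) ≃ Var n) F, Fintype.prod_sum_type]

/-- The image of `x_i`. -/
noncomputable def px (K : Type u) [Field K] (c : Fin n → Option (Fin m)) (i : Fin n) :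
    MvPolynomial (Fin n ⊕ Fin m) K :=
  (c i).elim 0 (fun C => X (Sum.inl i) * X (Sum.inr C))

/-- The image of `y_i`. -/
noncomputable def py (K : Type u) [Field K] (c : Fin n → Option (Fin m)) (i : Fin n) :
    MvPolynomial (Fin n ⊕ Fin m) K :=
  (c i).elim 0 (fun _ => X (Sum.inl i))

/-- The parametrization. -/
noncomputable def phi (K : Type u) [Field K] (c : Fin n → Option (Fin m)) :
    MvPolynomial (Var n) K →ₐ[K] MvPolynomial (Fin n ⊕ Fin m) K :=
  aeval (fun v => Sum.elim (px K c) (py K c) (ofLex v))

theorem phi_x (c : Fin n → Option (Fin m)) (i : Fin n) : phi K c (x K i) = px K c i := by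
  simp [phi, x]

theorem phi_y (c : Fin n → Option (Fin m)) (i : Fin n) : phi K c (y K i) = py K c i := by
  simp [phi, y]

/-- The exponent vector avoids the variables with `c i = none`. -/
def NoT (c : Fin n → Option (Fin m)) (μ : Var n →₀ ℕ) : Prop :=
  ∀ i, c i = none → μ (Sum.inlₗ i) = 0 ∧ μ (Sum.inrₗ i) = 0

/-- The exponent of the image. -/
noncomputable def Phi (c : Fin n → Option (Fin m)) (μ : Var n →₀ ℕ) : (Fin n ⊕ Fin m) →₀ ℕ :=
  Finsupp.equivFunOnFinite.symm (Sum.elim (fun i => μ (Sum.inlₗ i) + μ (Sum.inrₗ i))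
    (fun C => ∑ i, if c i = some C then μ (Sum.inlₗ i) else 0))

theorem Phi_inl (c : Fin n → Option (Fin m)) (μ : Var n →₀ ℕ) (i : Fin n) :
    Phi c μ (Sum.inl i) = μ (Sum.inlₗ i) + μ (Sum.inrₗ i) := by
  simp [Phi]

theorem Phi_inr (c : Fin n → Option (Fin m)) (μ : Var n →₀ ℕ) (C : Fin m) :
    Phi c μ (Sum.inr C) = ∑ i, if c i = some C then μ (Sum.inlₗ i) else 0 := by
  simp [Phi]

theorem monomial_eq_prod (μ : Var n →₀ ℕ) : (monomial μ (1 : K)) =
    (∏ i, x K i ^ μ (Sum.inlₗ i)) * ∏ i, y K i ^ μ (Sum.inrₗ i) := by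
  rw [monomial_eq, Finsupp.prod_fintype _ _ (fun i => pow_zero _), prod_var, C_1, one_mul]
  rfl

theorem phi_monomial_noT (c : Fin n → Option (Fin m)) (μ : Var n →₀ ℕ) (h : NoT c μ) :
    phi K c (monomial μ 1) = monomial (Phi c μ) 1 := by
  rw [monomial_eq_prod, map_mul, map_prod, map_prod, monomial_eq,
    Finsupp.prod_fintype _ _ (fun i => pow_zero _), Fintype.prod_sum_type, C_1, one_mul]
  simp only [map_pow, phi_x, phi_y, Phi_inl, Phi_inr]
  have h1 : ∀ i, px K c i ^ μ (Sum.inlₗ i) = X (Sum.inl i) ^ μ (Sum.inlₗ i) *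
      ∏ C, (X (Sum.inr C) : MvPolynomial (Fin n ⊕ Fin m) K) ^
        (if c i = some C then μ (Sum.inlₗ i) else 0) := by
    intro i
    rcases hc : c i with _ | C
    · rw [(h i hc).1]
      simp
    · rw [px, hc]
      simp only [Option.elim_some, mul_pow, Option.some.injEq]
      congr 1
      rw [Finset.prod_eq_single C]
      · simp
      · intro b _ hb
        rw [if_neg (Ne.symm hb), pow_zero]
      · intro hC
        exact absurd (Finset.mem_univ C) hC
  have h2 : ∀ i, py K c i ^ μ (Sum.inrₗ i) = X (Sum.inl i) ^ μ (Sum.inrₗ i) := by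
    intro i
    rcases hc : c i with _ | C
    · rw [(h i hc).2]
      simp
    · rw [py, hc]
      simp
  rw [Finset.prod_congr rfl (fun i _ => h1 i), Finset.prod_congr rfl (fun i _ => h2 i),
    Finset.prod_mul_distrib, Finset.prod_comm]
  simp only [pow_add, Finset.prod_mul_distrib, Finset.prod_pow_eq_pow_sum]
  ring

theorem phi_monomial_T (c : Fin n → Option (Fin m)) (μ : Var n →₀ ℕ) (h : ¬ NoT c μ) :
    phi K c (monomial μ 1) = 0 := by
  rw [monomial_eq_prod, map_mul, map_prod, map_prod]
  simp only [NoT, not_forall] at h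
  obtain ⟨i, hi, hne⟩ := h
  simp only [map_pow, phi_x, phi_y]
  by_cases h1 : μ (Sum.inlₗ i) = 0
  · have h2 : μ (Sum.inrₗ i) ≠ 0 := fun h2 => hne ⟨h1, h2⟩
    rw [Finset.prod_eq_zero (i := i) (s := Finset.univ)
      (f := fun i => py K c i ^ μ (Sum.inrₗ i)) (Finset.mem_univ _), mul_zero]
    rw [py, hi, Option.elim_none, zero_pow h2]
  · rw [Finset.prod_eq_zero (i := i) (s := Finset.univ)
      (f := fun i => px K c i ^ μ (Sum.inlₗ i)) (Finset.mem_univ _), zero_mul]
    rw [px, hi, Option.elim_none, zero_pow h1]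

theorem phi_gen (c : Fin n → Option (Fin m)) (i j : Fin n)
    (h : c i = none ∨ c j = none ∨ c i = c j) :
    phi K c (x K i * y K j - x K j * y K i) = 0 := by
  rw [map_sub, map_mul, map_mul, phi_x, phi_x, phi_y, phi_y]
  rcases h with h | h | h
  · rw [px, py, px, py, h]; simp
  · rw [px, py, px, py, h]; simp
  · rcases hj : c j with _ | C
    · rw [px, py, px, py, h, hj]; simp
    · rw [px, py, px, py, h, hj]
      simp only [Option.elim_some]
      ring

theorem phi_ideal (c : Fin n → Option (Fin m)) (G : SimpleGraph (Fin n))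
    (hc : ∀ i j, G.Adj i j → c i = none ∨ c j = none ∨ c i = c j)
    {f : MvPolynomial (Var n) K} (hf : f ∈ binomialEdgeIdeal K G) : phi K c f = 0 := by
  have h : binomialEdgeIdeal K G ≤ RingHom.ker (phi K c) := by
    rw [binomialEdgeIdeal, Ideal.span_le]
    rintro _ ⟨i, j, -, hij, rfl⟩
    exact phi_gen c i j (hc i j hij)
  exact h hf

/-- The exponent vectors of threshold type. -/
def Thr (c : Fin n → Option (Fin m)) (r : Fin m → Fin n) (μ : Var n →₀ ℕ) : Prop :=
  (∀ i C, c i = some C → i < r C → μ (Sum.inlₗ i) = 0) ∧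
    (∀ i C, c i = some C → r C < i → μ (Sum.inrₗ i) = 0)

theorem eq_of_Phi (c : Fin n → Option (Fin m)) (r : Fin m → Fin n) (l μ : Var n →₀ ℕ)
    (hl : NoT c l) (hlt : Thr c r l) (hμ : NoT c μ) (hle : ¬ toLex l < toLex μ)
    (hPhi : Phi c μ = Phi c l) : μ = l := by
  have hin : ∀ i, μ (Sum.inlₗ i) + μ (Sum.inrₗ i) = l (Sum.inlₗ i) + l (Sum.inrₗ i) := by
    intro i
    have := congrArg (fun z => z (Sum.inl i)) hPhi
    simpa only [Phi_inl] using this
  have hC : ∀ C, ∑ i, (if c i = some C then μ (Sum.inlₗ i) else 0) =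
      ∑ i, (if c i = some C then l (Sum.inlₗ i) else 0) := by
    intro C
    have := congrArg (fun z => z (Sum.inr C)) hPhi
    simpa only [Phi_inr] using this
  have hx : ∀ i, μ (Sum.inlₗ i) = l (Sum.inlₗ i) := by
    by_contra hcon
    push Not at hcon
    -- the first index where they differ
    obtain ⟨i, hi, hmin⟩ : ∃ i, μ (Sum.inlₗ i) ≠ l (Sum.inlₗ i) ∧
        ∀ j, j < i → μ (Sum.inlₗ j) = l (Sum.inlₗ j) := by
      have hne : (Finset.univ.filter (fun i => μ (Sum.inlₗ i) ≠ l (Sum.inlₗ i))).Nonempty := by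
        obtain ⟨i, hi⟩ := hcon
        exact ⟨i, by simpa using hi⟩
      refine ⟨Finset.min' _ hne, ?_, ?_⟩
      · have := Finset.min'_mem _ hne
        simpa using this
      · intro j hj
        by_contra hne'
        exact absurd (Finset.min'_le _ j (by simpa using hne')) (not_le.2 hj)
    have hlt1 : μ (Sum.inlₗ i) < l (Sum.inlₗ i) := by
      rcases lt_or_gt_of_ne hi with h | h
      · exact h
      · exfalso
        apply hle
        rw [Finsupp.Lex.lt_iff]
        refine ⟨Sum.inlₗ i, ?_, h⟩
        intro v hv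
        rcases hv' : ofLex v with j | j
        · have hvj : v = Sum.inlₗ j := by rw [← toLex_ofLex v, hv']
          rw [hvj]
          rw [hvj] at hv
          have hji : j < i := Sum.Lex.inl_lt_inl_iff.1 hv
          exact (hmin j hji).symm
        · have hvj : v = Sum.inrₗ j := by rw [← toLex_ofLex v, hv']
          rw [hvj] at hv
          exact absurd hv Sum.Lex.not_inr_lt_inl
    -- the component of i
    rcases hci : c i with _ | C
    · exact absurd (hμ i hci).1 (by have := (hl i hci).1; omega)
    · have hir : ¬ i < r C := by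
        intro h
        have := hlt.1 i C hci h
        omega
      -- some later vertex of the component has a bigger exponent
      obtain ⟨j, hjC, hij, hj⟩ : ∃ j, c j = some C ∧ i < j ∧
          l (Sum.inlₗ j) < μ (Sum.inlₗ j) := by
        by_contra hno
        push Not at hno
        have hlt2 : ∑ i, (if c i = some C then μ (Sum.inlₗ i) else 0) <
            ∑ i, (if c i = some C then l (Sum.inlₗ i) else 0) := by
          apply Finset.sum_lt_sum
          · intro j _
            by_cases hjC : c j = some C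
            · rw [if_pos hjC, if_pos hjC]
              rcases lt_trichotomy j i with h | h | h
              · rw [hmin j h]
              · rw [h]; exact hlt1.le
              · exact hno j hjC h
            · rw [if_neg hjC, if_neg hjC]
          · refine ⟨i, Finset.mem_univ _, ?_⟩
            rw [if_pos hci, if_pos hci]
            exact hlt1
        have := hC C
        omega
      have hrj : r C < j := lt_of_le_of_lt (not_lt.1 hir) hij
      have h0 := hlt.2 j C hjC hrj
      have := hin j
      omega
  have hy : ∀ i, μ (Sum.inrₗ i) = l (Sum.inrₗ i) := by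
    intro i
    have h1 := hin i
    have h2 := hx i
    omega
  ext v
  rcases hv' : ofLex v with j | j
  · have hvj : v = Sum.inlₗ j := by rw [← toLex_ofLex v, hv']
    rw [hvj]; exact hx j
  · have hvj : v = Sum.inrₗ j := by rw [← toLex_ofLex v, hv']
    rw [hvj]; exact hy j

theorem degree_not (c : Fin n → Option (Fin m)) (r : Fin m → Fin n) (G : SimpleGraph (Fin n))
    (hc : ∀ i j, G.Adj i j → c i = none ∨ c j = none ∨ c i = c j)
    {f : MvPolynomial (Var n) K} (hf : f ∈ binomialEdgeIdeal K G) (hne : f ≠ 0)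
    (hT : NoT c (MonomialOrder.lex.degree f)) (hthr : Thr c r (MonomialOrder.lex.degree f)) :
    False := by
  set l := MonomialOrder.lex.degree f with hl
  have h0 : coeff (Phi c l) (phi K c f) = coeff l f := by
    conv_lhs => rw [f.as_sum, map_sum, coeff_sum]
    rw [Finset.sum_eq_single l]
    · have : (monomial l (coeff l f) : MvPolynomial (Var n) K) = C (coeff l f) * monomial l 1 := by
        rw [C_mul_monomial, mul_one]
      rw [this, map_mul, phi_monomial_noT c l hT, ← algebraMap_eq, AlgHom.commutes, algebraMap_eq,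
        coeff_C_mul, coeff_monomial, if_pos rfl, mul_one]
    · intro μ hμ hμl
      have : (monomial μ (coeff μ f) : MvPolynomial (Var n) K) = C (coeff μ f) * monomial μ 1 := by
        rw [C_mul_monomial, mul_one]
      rw [this, map_mul, ← algebraMap_eq, AlgHom.commutes, algebraMap_eq, coeff_C_mul]
      by_cases hμT : NoT c μ
      · rw [phi_monomial_noT c μ hμT, coeff_monomial, if_neg, mul_zero]
        intro hPhi
        apply hμl
        refine eq_of_Phi c r l μ hT hthr hμT ?_ hPhi
        intro hlt
        have h1 := MonomialOrder.le_degree (m := MonomialOrder.lex) hμ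
        rw [MonomialOrder.lex_le_iff] at h1
        exact absurd hlt (not_lt.2 h1)
      · rw [phi_monomial_T c μ hμT, coeff_zero, mul_zero]
    · intro hls
      rw [notMem_support_iff.1 hls]
      simp
  rw [phi_ideal c G hc hf, coeff_zero] at h0
  exact (MonomialOrder.leadingCoeff_ne_zero_iff (m := MonomialOrder.lex)).2 hne h0.symm

/-- The set of variables generating the prime attached to `c` and `r`. -/
def primeSet (c : Fin n → Option (Fin m)) (r : Fin m → Fin n) : Finset (Var n) :=
  Finset.univ.filter (fun v => Sum.elim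
    (fun i => (c i).elim true (fun C => decide (i < r C)))
    (fun i => (c i).elim true (fun C => decide (r C < i))) (ofLex v) = true)

theorem initialIdeal_le (c : Fin n → Option (Fin m)) (r : Fin m → Fin n)
    (G : SimpleGraph (Fin n)) (hc : ∀ i j, G.Adj i j → c i = none ∨ c j = none ∨ c i = c j) :
    initialIdeal (binomialEdgeIdeal K G) ≤ VNum.varI K (primeSet c r) := by
  rw [initialIdeal, Ideal.span_le]
  rintro _ ⟨f, hf, hne, rfl⟩
  by_contra hcon
  have h0 : VNum.sdeg (primeSet c r) (MonomialOrder.lex.degree f) = 0 := by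
    by_contra h
    apply hcon
    have := (VNum.monomial_mem_iff (K := K) (primeSet c r) (MonomialOrder.lex.degree f) 1).2
      (by omega)
    rwa [pow_one] at this
  rw [VNum.sdeg, Finset.sum_eq_zero_iff] at h0
  refine degree_not c r G hc hf hne ?_ ⟨?_, ?_⟩
  · intro i hi
    constructor
    · apply h0
      simp [primeSet, hi]
    · apply h0
      simp [primeSet, hi]
  · intro i C hi hlt
    apply h0
    simp [primeSet, hi, hlt]
  · intro i C hi hlt
    apply h0
    simp [primeSet, hi, hlt]

end Q37.BinReg
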