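import Pool.Agent.Q37.BinReg.Defs
import Pool.Agent.Q37.VNum.Order

/-! A lower bound for the regularity of the symbolic powers of a monomial ideal. -/

open MvPolynomial

namespace Q37.BinReg

universe u

variable {K : Type u} [Field K] {σ : Type} [Fintype σ] [LinearOrder σ]

/-- A form of degree `d` in `J` outside of `𝔪 J` forces `reg J ≥ d`. -/
theorem le_reg_of_generator (J : Ideal (MvPolynomial σ K)) (f : MvPolynomial σ K) (d : ℕ)
    (hf : f ∈ J) (hd : f.IsHomogeneous d)
    (hm : ∀ g : σ → MvPolynomial σ K, (∀ t, g t ∈ J) → f ≠ ∑ t, X t * g t) :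
    (d : ℕ∞) ≤ reg J := by
  classical
  have h : HasTor J 0 d := by
    refine ⟨fun T => if T = ∅ then f else 0, ?_, ?_, ?_, ?_⟩
    · intro T hT
      beta_reduce
      rw [if_neg]
      rintro rfl
      exact hT Finset.card_empty
    · intro T
      beta_reduce
      by_cases hT : T = ∅
      · rw [if_pos hT]; exact ⟨hf, hd⟩
      · rw [if_neg hT]; exact ⟨J.zero_mem, isHomogeneous_zero _ _ _⟩
    · intro T
      rw [koszulD]
      apply Finset.sum_eq_zero
      intro t _
      rw [if_neg (Finset.insert_ne_empty t T), mul_zero]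
    · rintro ⟨g, -, hgJ, hg⟩
      refine hm (fun t => g {t}) (fun t => hgJ _) ?_
      have h0 := hg ∅
      beta_reduce at h0
      rw [if_pos rfl, koszulD] at h0
      rw [h0, Finset.sdiff_empty]
      apply Finset.sum_congr rfl
      intro t _
      simp
  exact le_iSup_of_le d (le_iSup_of_le ⟨0, h⟩ le_rfl)

omit [Fintype σ] in
theorem X_mem_varI_iff (s : Finset σ) (v : σ) :
    (X v : MvPolynomial σ K) ∈ VNum.varI K s ↔ v ∈ s := by
  constructor
  · intro h
    by_contra hv
    rw [← pow_one (VNum.varI K s), X, VNum.monomial_mem_iff] at h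
    have : VNum.sdeg s (Finsupp.single v 1) = 0 := by
      rw [VNum.sdeg]
      apply Finset.sum_eq_zero
      intro w hw
      rw [Finsupp.single_apply, if_neg]
      rintro rfl
      exact hv hw
    omega
  · intro h
    exact Ideal.subset_span (Set.mem_image_of_mem _ (by simpa using h))

/-- Minimal primes of an ideal generated by monomials are generated by variables. -/
theorem minimalPrime_eq (A : Set (σ →₀ ℕ)) (P : Ideal (MvPolynomial σ K))
    (hP : P ∈ (Ideal.span ((fun a => (monomial a (1 : K))) '' A)).minimalPrimes) :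
    ∃ s : Finset σ, P = VNum.varI K s := by
  classical
  refine ⟨Finset.univ.filter (fun v => (X v : MvPolynomial σ K) ∈ P), ?_⟩
  set s := Finset.univ.filter (fun v => (X v : MvPolynomial σ K) ∈ P) with hs
  have h1 : VNum.varI K s ≤ P := by
    rw [VNum.varI, Ideal.span_le]
    rintro _ ⟨v, hv, rfl⟩
    have : v ∈ s := by simpa using hv
    rw [hs, Finset.mem_filter] at this
    exact this.2
  have h2 : Ideal.span ((fun a => (monomial a (1 : K))) '' A) ≤ VNum.varI K s := by
    rw [Ideal.span_le]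
    rintro _ ⟨a, ha, rfl⟩
    have hmem : (monomial a (1 : K)) ∈ P := hP.1.2 (Ideal.subset_span ⟨a, ha, rfl⟩)
    rw [monomial_eq, C_1, one_mul, Finsupp.prod] at hmem
    obtain ⟨v, hv, hvP⟩ := (hP.1.1.prod_mem_iff).1 hmem
    have hvP' : (X v : MvPolynomial σ K) ∈ P := hP.1.1.mem_of_pow_mem _ hvP
    have hva : a v ≠ 0 := by simpa using hv
    change (monomial a (1 : K)) ∈ VNum.varI K s
    rw [← pow_one (VNum.varI K s), VNum.monomial_mem_iff, VNum.sdeg]
    have hvs : v ∈ s := by rw [hs, Finset.mem_filter]; exact ⟨Finset.mem_univ _, hvP'⟩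
    calc 1 ≤ a v := by omega
      _ ≤ ∑ w ∈ s, a w := Finset.single_le_sum (fun _ _ => Nat.zero_le _) hvs
  exact le_antisymm (hP.2 ⟨VNum.varI_prime s, h2⟩ h1) h1

/-- The lower bound. -/
theorem lower_bound (A : Set (σ →₀ ℕ)) (W : Finset σ)
    (hA : ∀ P : Ideal (MvPolynomial σ K), P.IsPrime →
      Ideal.span ((fun a => (monomial a (1 : K))) '' A) ≤ P →
      ∃ w ∈ W, ∃ w' ∈ W, w ≠ w' ∧ (X w : MvPolynomial σ K) ∈ P ∧ (X w' : MvPolynomial σ K) ∈ P)
    (hB : ∀ w ∈ W, ∃ s : Finset σ,
      Ideal.span ((fun a => (monomial a (1 : K))) '' A) ≤ VNum.varI K s ∧ w ∈ s ∧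
      (W ∩ s).card ≤ 2)
    (k : ℕ) (hk : 1 ≤ k) :
    ((W.card * k : ℕ) : ℕ∞) ≤
      reg (symbolicPower (Ideal.span ((fun a => (monomial a (1 : K))) '' A)) (2 * k)) := by
  classical
  set I := Ideal.span ((fun a => (monomial a (1 : K))) '' A) with hI
  set e : σ →₀ ℕ := Finsupp.equivFunOnFinite.symm (fun v => if v ∈ W then k else 0) with he
  have hev : ∀ v, e v = if v ∈ W then k else 0 := fun v => by simp [he]
  have hmon : (monomial e (1 : K)) = ∏ w ∈ W, (X w : MvPolynomial σ K) ^ k := by
    rw [monomial_eq, C_1, one_mul, Finsupp.prod_fintype _ _ (fun i => pow_zero _)]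
    rw [← Finset.prod_subset (Finset.subset_univ W)]
    · apply Finset.prod_congr rfl
      intro w hw
      rw [hev, if_pos hw]
    · intro w _ hw
      rw [hev, if_neg hw, pow_zero]
  apply le_reg_of_generator _ (monomial e 1)
  · -- membership
    intro P hP
    refine ⟨1, ?_, ?_⟩
    · intro h
      exact (hP.1.1).ne_top ((Ideal.eq_top_iff_one P).2 h)
    · obtain ⟨w, hw, w', hw', hne, hwP, hwP'⟩ := hA P hP.1.1 hP.1.2
      rw [mul_one, hmon, ← Finset.mul_prod_erase W _ hw,
        ← Finset.mul_prod_erase (W.erase w) _ (Finset.mem_erase.2 ⟨hne.symm, hw'⟩), ← mul_assoc,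
        two_mul, pow_add]
      exact Ideal.mul_mem_right _ _ (Ideal.mul_mem_mul (Ideal.pow_mem_pow hwP k)
        (Ideal.pow_mem_pow hwP' k))
  · have h1 := isHomogeneous_monomial (σ := σ) (R := K) (d := e) (n := e.degree) 1 rfl
    have h2 : e.degree = W.card * k := by
      rw [Finsupp.degree_eq_sum]
      simp only [hev]
      rw [Finset.sum_ite_mem, Finset.univ_inter, Finset.sum_const, smul_eq_mul]
    rw [← h2]; exact h1
  · intro g hg heq
    have h1 : coeff e (monomial e (1 : K)) = 1 := by rw [coeff_monomial, if_pos rfl]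
    rw [heq, coeff_sum] at h1
    obtain ⟨t, -, ht⟩ := Finset.exists_ne_zero_of_sum_ne_zero (by rw [h1]; exact one_ne_zero)
    rw [mul_comm, coeff_mul_X'] at ht
    split_ifs at ht with hte
    swap
    · exact absurd rfl ht
    have htW : t ∈ W := by
      by_contra htW
      rw [Finsupp.mem_support_iff, hev, if_neg htW] at hte
      exact hte rfl
    obtain ⟨s, hIs, hts, hcard⟩ := hB t htW
    have := VNum.varI_prime (K := K) s
    obtain ⟨P, hP, hPs⟩ := Ideal.exists_minimalPrimes_le hIs
    obtain ⟨s', hs'⟩ := minimalPrime_eq A P hP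
    subst hs'
    obtain ⟨w, hw, w', hw', hne, hwP, hwP'⟩ := hA _ hP.1.1 hP.1.2
    rw [X_mem_varI_iff] at hwP hwP'
    have hsub : s' ⊆ s := by
      intro v hv
      rw [← X_mem_varI_iff (K := K)]
      exact hPs ((X_mem_varI_iff (K := K) s' v).2 hv)
    have hsub2 : W ∩ s' ⊆ W ∩ s := Finset.inter_subset_inter_left hsub
    have hc2 : 2 ≤ (W ∩ s').card := by
      have : ({w, w'} : Finset σ) ⊆ W ∩ s' := by
        intro v hv
        rw [Finset.mem_insert, Finset.mem_singleton] at hv
        rcases hv with rfl | rfl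
        · exact Finset.mem_inter.2 ⟨hw, hwP⟩
        · exact Finset.mem_inter.2 ⟨hw', hwP'⟩
      calc 2 = ({w, w'} : Finset σ).card := (Finset.card_pair hne).symm
        _ ≤ _ := Finset.card_le_card this
    have heq2 : W ∩ s' = W ∩ s := Finset.eq_of_subset_of_card_le hsub2 (by omega)
    have hts' : t ∈ s' := by
      have : t ∈ W ∩ s' := by rw [heq2]; exact Finset.mem_inter.2 ⟨htW, hts⟩
      exact (Finset.mem_inter.1 this).2
    have hc3 : (W ∩ s').card = 2 := by
      have := Finset.card_le_card hsub2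
      omega
    obtain ⟨q, hq, hqg⟩ := hg t _ hP
    have hgP : g t ∈ VNum.varI K s' ^ (2 * k) := by
      by_contra hgP
      have hqg' : q * g t ∈ VNum.varI K s' ^ (2 * k) := by
        rw [mul_comm q]; exact hqg
      exact VNum.primary s' hq hgP hqg'
    have h5 := (VNum.mem_varI_pow_iff _ _ _).1 hgP _ ht
    have h6 : VNum.sdeg s' (e - Finsupp.single t 1) + 1 = VNum.sdeg s' e := by
      rw [VNum.sdeg, VNum.sdeg, ← Finset.add_sum_erase s' _ hts', ← Finset.add_sum_erase s' e hts']
      have h7 : ∑ v ∈ s'.erase t, (e - Finsupp.single t 1 : σ →₀ ℕ) v =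
          ∑ v ∈ s'.erase t, e v := by
        apply Finset.sum_congr rfl
        intro v hv
        rw [Finsupp.coe_tsub, Pi.sub_apply, Finsupp.single_apply,
          if_neg (Finset.ne_of_mem_erase hv).symm, Nat.sub_zero]
      rw [h7, Finsupp.coe_tsub, Pi.sub_apply, Finsupp.single_apply, if_pos rfl, hev, if_pos htW]
      omega
    have h8 : VNum.sdeg s' e = 2 * k := by
      rw [VNum.sdeg]
      simp only [hev]
      rw [Finset.sum_ite_mem, Finset.sum_const, smul_eq_mul, Finset.inter_comm, hc3]
    omega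

end Q37.BinReg
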