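import Pool.Agent.Q37.BinReg.Graph
import Pool.Agent.Q37.BinReg.Init
import Pool.Agent.Q37.BinReg.Sym

/-! The symbolic powers of the initial ideal of the binomial edge ideal of the graph `G9`. -/

open MvPolynomial

namespace Q37.BinReg

universe u

variable {K : Type u} [Field K] {n : ℕ}

theorem initialIdeal_eq (J : Ideal (MvPolynomial (Var n) K)) :
    initialIdeal J = Ideal.span ((fun a => (monomial a (1 : K))) ''
      {a | ∃ f ∈ J, f ≠ 0 ∧ a = MonomialOrder.lex.degree f}) := by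
  rw [initialIdeal]
  congr 1
  ext g
  constructor
  · rintro ⟨f, hf, hne, rfl⟩
    exact ⟨_, ⟨f, hf, hne, rfl⟩, rfl⟩
  · rintro ⟨_, ⟨f, hf, hne, rfl⟩, rfl⟩
    exact ⟨f, hf, hne, rfl⟩

theorem lead (J : Ideal (MvPolynomial (Var n) K)) (c : Var n →₀ ℕ) (i j : Fin n) (hij : i < j)
    (h : monomial c 1 * (x K i * y K j - x K j * y K i) ∈ J) :
    monomial c 1 * (x K i * y K j) ∈ initialIdeal J := by
  classical
  set a : Var n →₀ ℕ := c + (Finsupp.single (Sum.inlₗ i) 1 + Finsupp.single (Sum.inrₗ j) 1)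
    with ha
  set b : Var n →₀ ℕ := c + (Finsupp.single (Sum.inlₗ j) 1 + Finsupp.single (Sum.inrₗ i) 1)
    with hb
  have e1 : (monomial c 1 * (x K i * y K j) : MvPolynomial (Var n) K) = monomial a 1 := by
    rw [x, y, X, X, monomial_mul, monomial_mul, one_mul, one_mul, ha]
  have e2 : (monomial c 1 * (x K j * y K i) : MvPolynomial (Var n) K) = monomial b 1 := by
    rw [x, y, X, X, monomial_mul, monomial_mul, one_mul, one_mul, hb]
  rw [mul_sub, e1, e2] at h
  rw [e1]
  have hlt : toLex b < toLex a := by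
    rw [Finsupp.Lex.lt_iff]
    refine ⟨Sum.inlₗ i, ?_, ?_⟩
    · intro v hv
      have h1 : v ≠ Sum.inlₗ i := ne_of_lt hv
      have h2 : v ≠ Sum.inlₗ j := by
        rintro rfl
        exact absurd (Sum.Lex.inl_lt_inl_iff.1 hv) (not_lt.2 hij.le)
      have h3 : v ≠ Sum.inrₗ j := by
        rintro rfl
        exact absurd hv Sum.Lex.not_inr_lt_inl
      have h4 : v ≠ Sum.inrₗ i := by
        rintro rfl
        exact absurd hv Sum.Lex.not_inr_lt_inl
      change b v = a v
      rw [ha, hb]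
      simp only [Finsupp.add_apply, Finsupp.single_apply, if_neg (Ne.symm h1),
        if_neg (Ne.symm h2), if_neg (Ne.symm h3), if_neg (Ne.symm h4)]
    · change b (Sum.inlₗ i) < a (Sum.inlₗ i)
      have h2 : (Sum.inlₗ j : Var n) ≠ Sum.inlₗ i := by
        intro h
        have h' : (Sum.inl j : Fin n ⊕ Fin n) = Sum.inl i := h
        rw [Sum.inl.injEq] at h'
        exact absurd h' (ne_of_gt hij)
      have h4 : (Sum.inrₗ i : Var n) ≠ Sum.inlₗ i := by
        intro h
        have h' : (Sum.inr i : Fin n ⊕ Fin n) = Sum.inl i := h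
        exact Sum.inr_ne_inl h'
      rw [ha, hb]
      simp only [Finsupp.add_apply, Finsupp.single_apply, if_neg h2, if_neg h4]
      simp
  have hdeg : MonomialOrder.lex.degree (monomial a 1 - monomial b 1 : MvPolynomial (Var n) K) =
      a := by
    rw [MonomialOrder.degree_sub_of_lt]
    · rw [MonomialOrder.degree_monomial, if_neg one_ne_zero]
    · rw [MonomialOrder.degree_monomial, MonomialOrder.degree_monomial, if_neg one_ne_zero,
        if_neg one_ne_zero, MonomialOrder.lex_lt_iff]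
      exact hlt
  have hne : (monomial a 1 - monomial b 1 : MvPolynomial (Var n) K) ≠ 0 := by
    intro h0
    have h1 := congrArg (coeff a) h0
    rw [coeff_sub, coeff_monomial, coeff_monomial, if_pos rfl, if_neg, sub_zero, coeff_zero] at h1
    · exact one_ne_zero h1
    · intro hba
      rw [hba] at hlt
      exact lt_irrefl _ hlt
  exact Ideal.subset_span ⟨_, h, hne, by rw [hdeg]⟩

/-- The generators attached to the edges. -/
theorem edge_mem {G : SimpleGraph (Fin n)} {i j : Fin n} (hij : i < j) (h : G.Adj i j) :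
    x K i * y K j - x K j * y K i ∈ binomialEdgeIdeal K G :=
  Ideal.subset_span ⟨i, j, hij, h, rfl⟩

theorem mem1 : y K 0 * (x K 4 * y K 7) ∈ initialIdeal (binomialEdgeIdeal K G9) := by
  apply lead _ (Finsupp.single (Sum.inrₗ 0) 1) 4 7 (by decide)
  have e04 := edge_mem (K := K) (G := G9) (i := 0) (j := 4) (by decide) (by decide)
  have e07 := edge_mem (K := K) (G := G9) (i := 0) (j := 7) (by decide) (by decide)
  have : (monomial (Finsupp.single (Sum.inrₗ 0) 1) 1 * (x K 4 * y K 7 - x K 7 * y K 4) :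
      MvPolynomial (Var 9) K) = y K 4 * (x K 0 * y K 7 - x K 7 * y K 0) -
      y K 7 * (x K 0 * y K 4 - x K 4 * y K 0) := by
    change y K 0 * _ = _
    ring
  rw [this]
  exact Ideal.sub_mem _ (Ideal.mul_mem_left _ _ e07) (Ideal.mul_mem_left _ _ e04)

theorem mem2 : (y K 1 * y K 2) * (x K 4 * y K 7) ∈ initialIdeal (binomialEdgeIdeal K G9) := by
  have hm : (y K 1 * y K 2 : MvPolynomial (Var 9) K) =
      monomial (Finsupp.single (Sum.inrₗ 1) 1 + Finsupp.single (Sum.inrₗ 2) 1) 1 := by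
    rw [y, y, X, X, monomial_mul, one_mul]
  rw [hm]
  apply lead _ _ 4 7 (by decide)
  rw [← hm]
  have e14 := edge_mem (K := K) (G := G9) (i := 1) (j := 4) (by decide) (by decide)
  have e12 := edge_mem (K := K) (G := G9) (i := 1) (j := 2) (by decide) (by decide)
  have e27 := edge_mem (K := K) (G := G9) (i := 2) (j := 7) (by decide) (by decide)
  have : (y K 1 * y K 2 * (x K 4 * y K 7 - x K 7 * y K 4) : MvPolynomial (Var 9) K) =
      y K 4 * y K 7 * (x K 1 * y K 2 - x K 2 * y K 1) +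
      y K 1 * y K 4 * (x K 2 * y K 7 - x K 7 * y K 2) -
      y K 2 * y K 7 * (x K 1 * y K 4 - x K 4 * y K 1) := by
    ring
  rw [this]
  exact Ideal.sub_mem _ (Ideal.add_mem _ (Ideal.mul_mem_left _ _ e12)
    (Ideal.mul_mem_left _ _ e27)) (Ideal.mul_mem_left _ _ e14)

theorem mem3 : (y K 0 * y K 3) * (x K 4 * y K 5) ∈ initialIdeal (binomialEdgeIdeal K G9) := by
  have hm : (y K 0 * y K 3 : MvPolynomial (Var 9) K) =
      monomial (Finsupp.single (Sum.inrₗ 0) 1 + Finsupp.single (Sum.inrₗ 3) 1) 1 := by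
    rw [y, y, X, X, monomial_mul, one_mul]
  rw [hm]
  apply lead _ _ 4 5 (by decide)
  rw [← hm]
  have e04 := edge_mem (K := K) (G := G9) (i := 0) (j := 4) (by decide) (by decide)
  have e03 := edge_mem (K := K) (G := G9) (i := 0) (j := 3) (by decide) (by decide)
  have e35 := edge_mem (K := K) (G := G9) (i := 3) (j := 5) (by decide) (by decide)
  have : (y K 0 * y K 3 * (x K 4 * y K 5 - x K 5 * y K 4) : MvPolynomial (Var 9) K) =
      y K 4 * y K 5 * (x K 0 * y K 3 - x K 3 * y K 0) +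
      y K 0 * y K 4 * (x K 3 * y K 5 - x K 5 * y K 3) -
      y K 3 * y K 5 * (x K 0 * y K 4 - x K 4 * y K 0) := by
    ring
  rw [this]
  exact Ideal.sub_mem _ (Ideal.add_mem _ (Ideal.mul_mem_left _ _ e03)
    (Ideal.mul_mem_left _ _ e35)) (Ideal.mul_mem_left _ _ e04)

theorem mem4 : (x K 8 * y K 0) * (x K 6 * y K 7) ∈ initialIdeal (binomialEdgeIdeal K G9) := by
  have hm : (x K 8 * y K 0 : MvPolynomial (Var 9) K) =
      monomial (Finsupp.single (Sum.inlₗ 8) 1 + Finsupp.single (Sum.inrₗ 0) 1) 1 := by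
    rw [x, y, X, X, monomial_mul, one_mul]
  rw [hm]
  apply lead _ _ 6 7 (by decide)
  rw [← hm]
  have e08 := edge_mem (K := K) (G := G9) (i := 0) (j := 8) (by decide) (by decide)
  have e68 := edge_mem (K := K) (G := G9) (i := 6) (j := 8) (by decide) (by decide)
  have e07 := edge_mem (K := K) (G := G9) (i := 0) (j := 7) (by decide) (by decide)
  have : (x K 8 * y K 0 * (x K 6 * y K 7 - x K 7 * y K 6) : MvPolynomial (Var 9) K) =
      x K 0 * y K 7 * (x K 6 * y K 8 - x K 8 * y K 6) +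
      x K 8 * y K 6 * (x K 0 * y K 7 - x K 7 * y K 0) -
      x K 6 * y K 7 * (x K 0 * y K 8 - x K 8 * y K 0) := by
    ring
  rw [this]
  exact Ideal.sub_mem _ (Ideal.add_mem _ (Ideal.mul_mem_left _ _ e68)
    (Ideal.mul_mem_left _ _ e07)) (Ideal.mul_mem_left _ _ e08)

/-- The support of the vertex of the symbolic polyhedron. -/
def W9 : Finset (Var 9) :=
  {Sum.inlₗ 4, Sum.inlₗ 6, Sum.inlₗ 8, Sum.inrₗ 7, Sum.inrₗ 5, Sum.inrₗ 3, Sum.inrₗ 0,
    Sum.inrₗ 1, Sum.inrₗ 2}

theorem card_W9 : W9.card = 9 := by decide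

theorem two_variables (P : Ideal (MvPolynomial (Var 9) K)) (hP : P.IsPrime)
    (hI : initialIdeal (binomialEdgeIdeal K G9) ≤ P) :
    ∃ w ∈ W9, ∃ w' ∈ W9, w ≠ w' ∧ (X w : MvPolynomial (Var 9) K) ∈ P ∧
      (X w' : MvPolynomial (Var 9) K) ∈ P := by
  have m1 := hI (mem1 (K := K))
  have m2 := hI (mem2 (K := K))
  have m3 := hI (mem3 (K := K))
  have m4 := hI (mem4 (K := K))
  simp only [hP.mul_mem_iff_mem_or_mem] at m1 m2 m3 m4
  have fin : ∀ (v w : Var 9), v ∈ W9 → w ∈ W9 → v ≠ w → (X v : MvPolynomial (Var 9) K) ∈ P →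
      (X w : MvPolynomial (Var 9) K) ∈ P → ∃ w ∈ W9, ∃ w' ∈ W9, w ≠ w' ∧
      (X w : MvPolynomial (Var 9) K) ∈ P ∧ (X w' : MvPolynomial (Var 9) K) ∈ P :=
    fun v w hv hw hne h1 h2 => ⟨v, hv, w, hw, hne, h1, h2⟩
  rcases m1 with h | h | h
  · rcases m2 with (h' | h') | h' | h'
    · exact fin (Sum.inrₗ 0) (Sum.inrₗ 1) (by decide) (by decide) (by decide) h h'
    · exact fin (Sum.inrₗ 0) (Sum.inrₗ 2) (by decide) (by decide) (by decide) h h'
    · exact fin (Sum.inrₗ 0) (Sum.inlₗ 4) (by decide) (by decide) (by decide) h h'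
    · exact fin (Sum.inrₗ 0) (Sum.inrₗ 7) (by decide) (by decide) (by decide) h h'
  · rcases m4 with (h' | h') | h' | h'
    · exact fin (Sum.inlₗ 4) (Sum.inlₗ 8) (by decide) (by decide) (by decide) h h'
    · exact fin (Sum.inlₗ 4) (Sum.inrₗ 0) (by decide) (by decide) (by decide) h h'
    · exact fin (Sum.inlₗ 4) (Sum.inlₗ 6) (by decide) (by decide) (by decide) h h'
    · exact fin (Sum.inlₗ 4) (Sum.inrₗ 7) (by decide) (by decide) (by decide) h h'
  · rcases m3 with (h' | h') | h' | h'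
    · exact fin (Sum.inrₗ 7) (Sum.inrₗ 0) (by decide) (by decide) (by decide) h h'
    · exact fin (Sum.inrₗ 7) (Sum.inrₗ 3) (by decide) (by decide) (by decide) h h'
    · exact fin (Sum.inrₗ 7) (Sum.inlₗ 4) (by decide) (by decide) (by decide) h h'
    · exact fin (Sum.inrₗ 7) (Sum.inrₗ 5) (by decide) (by decide) (by decide) h h'

/-- The six component maps. -/
def comp9 : Fin 6 → Fin 9 → Option (Fin 3)
  | 0 => ![some 0, some 0, some 0, some 0, some 0, some 0, some 0, some 0, some 0]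
  | 1 => ![some 0, some 0, some 0, some 0, some 0, some 0, some 0, some 0, some 0]
  | 2 => ![none, none, some 0, some 1, some 2, some 1, some 1, some 0, some 1]
  | 3 => ![none, some 0, none, some 1, some 0, some 1, some 1, some 2, some 1]
  | 4 => ![some 0, some 0, some 0, none, some 0, some 1, some 0, some 0, some 0]
  | 5 => ![some 0, some 0, some 0, some 0, some 0, some 0, some 1, some 0, none]

/-- The six threshold maps. -/
def thr9 : Fin 6 → Fin 3 → Fin 9
  | 0 => ![3, 0, 0]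
  | 1 => ![7, 0, 0]
  | 2 => ![7, 5, 4]
  | 3 => ![1, 5, 7]
  | 4 => ![2, 5, 0]
  | 5 => ![7, 6, 0]

theorem comp9_ok : ∀ (a : Fin 6) (i j : Fin 9), G9.Adj i j →
    comp9 a i = none ∨ comp9 a j = none ∨ comp9 a i = comp9 a j := by
  decide

theorem cover9 : ∀ w ∈ W9, ∃ a : Fin 6, w ∈ primeSet (comp9 a) (thr9 a) ∧
    (W9 ∩ primeSet (comp9 a) (thr9 a)).card ≤ 2 := by
  decide

theorem reg_ge (k : ℕ) (hk : 1 ≤ k) :
    ((9 * k : ℕ) : ℕ∞) ≤
      reg (symbolicPower (initialIdeal (binomialEdgeIdeal K G9)) (2 * k)) := by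
  have h := lower_bound (K := K) {a | ∃ f ∈ binomialEdgeIdeal K G9, f ≠ 0 ∧
    a = MonomialOrder.lex.degree f} W9 ?_ ?_ k hk
  · rw [card_W9, ← initialIdeal_eq] at h
    exact h
  · intro P hP hI
    rw [← initialIdeal_eq] at hI
    exact two_variables P hP hI
  · intro w hw
    obtain ⟨a, ha, hcard⟩ := cover9 w hw
    refine ⟨primeSet (comp9 a) (thr9 a), ?_, ha, hcard⟩
    rw [← initialIdeal_eq]
    exact initialIdeal_le _ _ G9 (comp9_ok a)

end Q37.BinReg
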