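import Pool.Agent.Q37.BinReg.Defs

/-! The labelled graph on nine vertices and its admissible paths. -/

namespace Q37.BinReg

/-- The edges of the graph. -/
def edges9 : List (Fin 9 × Fin 9) :=
  [(0, 2), (0, 3), (0, 4), (0, 7), (0, 8), (1, 2), (1, 4), (2, 7), (3, 5), (3, 8), (6, 8)]

/-- The labelled graph on `{0, …, 8}`. -/
def G9 : SimpleGraph (Fin 9) where
  Adj i j := (i, j) ∈ edges9 ∨ (j, i) ∈ edges9
  symm := ⟨fun _ _ h => h.symm⟩
  loopless := ⟨by decide⟩

instance : DecidableRel G9.Adj := fun i j =>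
  inferInstanceAs (Decidable ((i, j) ∈ edges9 ∨ (j, i) ∈ edges9))

theorem window5 : ∀ a b : Fin 9, G9.Adj a b → ∀ c, G9.Adj b c → ¬ G9.Adj a c →
    ∀ d, G9.Adj c d → ¬ G9.Adj a d → ¬ G9.Adj b d →
    ∀ e, G9.Adj d e → ¬ G9.Adj a e → ¬ G9.Adj b e → ¬ G9.Adj c e →
    a < e → (b < a ∨ e < b) → False := by
  decide

theorem window6 : ∀ a b : Fin 9, G9.Adj a b → ∀ c, G9.Adj b c → ¬ G9.Adj a c →
    ∀ d, G9.Adj c d → ¬ G9.Adj a d → ¬ G9.Adj b d →
    ∀ e, G9.Adj d e → ¬ G9.Adj a e → ¬ G9.Adj b e → ¬ G9.Adj c e →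
    ∀ f, G9.Adj e f → f ≠ d → ¬ G9.Adj c f → False := by
  decide

/-- Removing vertices from an admissible path. -/
theorem not_path {n : ℕ} {G : SimpleGraph (Fin n)} {i j : Fin n} {A B C : List (Fin n)}
    (hB : B ≠ []) (h : IsAdmissible G i j (A ++ B ++ C)) :
    ¬ IsPathSeq G (i :: ((A ++ C) ++ [j])) := by
  apply h.2.2.2
  rw [Finset.ssubset_iff_subset_ne]
  constructor
  · intro v hv
    simp only [List.toFinset_append, Finset.mem_union, List.mem_toFinset] at hv ⊢
    tauto
  · intro heq
    obtain ⟨b, hb⟩ := List.exists_mem_of_ne_nil B hB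
    have hn : (A ++ B ++ C).Nodup := by
      have := h.2.1.1
      rw [List.nodup_cons] at this
      exact (List.nodup_append.1 this.2).1
    have hbm : b ∈ (A ++ B ++ C).toFinset := by
      simp only [List.toFinset_append, Finset.mem_union, List.mem_toFinset]
      tauto
    rw [← heq] at hbm
    simp only [List.toFinset_append, Finset.mem_union, List.mem_toFinset] at hbm
    rw [List.nodup_append] at hn
    obtain ⟨hAB, -, hABC⟩ := hn
    rw [List.nodup_append] at hAB
    rcases hbm with h1 | h1
    · exact hAB.2.2 b h1 b hb rfl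
    · exact hABC b (List.mem_append_right _ hb) b h1 rfl

/-- No chord between two vertices of an admissible path. -/
theorem no_chord {n : ℕ} {G : SimpleGraph (Fin n)} {i j : Fin n} {L : List (Fin n)}
    (h : IsAdmissible G i j L) (P : List (Fin n)) (u : Fin n) (B : List (Fin n)) (w : Fin n)
    (Q : List (Fin n)) (hB : B ≠ []) (hl : i :: (L ++ [j]) = P ++ u :: (B ++ w :: Q)) :
    ¬ G.Adj u w := by
  intro huw
  -- write the two outer parts
  obtain ⟨A, hA⟩ : ∃ A, P ++ [u] = i :: A := by
    rcases P with _ | ⟨p, P⟩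
    · simp only [List.nil_append, List.cons.injEq] at hl
      exact ⟨[], by simp [hl.1]⟩
    · simp only [List.cons_append, List.cons.injEq] at hl
      exact ⟨P ++ [u], by simp [hl.1]⟩
  obtain ⟨C, hC⟩ : ∃ C, w :: Q = C ++ [j] := by
    rcases List.eq_nil_or_concat Q with hQ | ⟨Q', q, hQ⟩
    · subst hQ
      have h1 := congrArg List.getLast? hl
      have e1 : (i :: (L ++ [j])).getLast? = some j := by
        rw [← List.cons_append, List.getLast?_append]; simp
      have e2 : (P ++ u :: (B ++ [w])).getLast? = some w := by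
        have : P ++ u :: (B ++ [w]) = (P ++ u :: B) ++ [w] := by simp
        rw [this, List.getLast?_append]; simp
      rw [e1, e2] at h1
      have h2 : j = w := by simpa using h1
      exact ⟨[], by simp [h2]⟩
    · rw [List.concat_eq_append] at hQ
      subst hQ
      have h1 := congrArg List.getLast? hl
      have e1 : (i :: (L ++ [j])).getLast? = some j := by
        rw [← List.cons_append, List.getLast?_append]; simp
      have e2 : (P ++ u :: (B ++ w :: (Q' ++ [q]))).getLast? = some q := by
        have : P ++ u :: (B ++ w :: (Q' ++ [q])) = (P ++ u :: (B ++ w :: Q')) ++ [q] := by simp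
        rw [this, List.getLast?_append]; simp
      rw [e1, e2] at h1
      refine ⟨w :: Q', ?_⟩
      have : j = q := by simpa using h1
      simp [this]
  have hLeq : L = A ++ B ++ C := by
    have h1 : i :: (L ++ [j]) = i :: ((A ++ B ++ C) ++ [j]) := by
      rw [hl]
      have : P ++ u :: (B ++ w :: Q) = (P ++ [u]) ++ B ++ (w :: Q) := by simp
      rw [this, hA, hC]
      simp
    rw [List.cons.injEq] at h1
    exact List.append_cancel_right h1.2
  subst hLeq
  apply not_path hB h
  have h2 : i :: ((A ++ C) ++ [j]) = P ++ [u] ++ (w :: Q) := by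
    rw [hA, hC]; simp
  rw [h2]
  have h3 := h.2.1
  rw [hl] at h3
  have h4 : P ++ u :: (B ++ w :: Q) = (P ++ [u]) ++ (B ++ (w :: Q)) := by simp
  rw [h4] at h3
  refine ⟨?_, ?_⟩
  · refine h3.1.sublist ?_
    exact List.Sublist.append_left (List.sublist_append_right _ _) _
  · have h5 := h3.2
    rw [List.isChain_append] at h5 ⊢
    refine ⟨h5.1, ?_, ?_⟩
    · exact (List.isChain_append.1 h5.2.1).2.1
    · intro a ha b hb
      simp only [List.getLast?_append, List.getLast?_singleton, Option.mem_def] at ha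
      simp only [List.head?_cons, Option.mem_def, Option.some.injEq] at hb
      simp at ha
      subst hb
      subst ha
      exact huw

theorem admissible_length (i j : Fin 9) (L : List (Fin 9)) (h : IsAdmissible G9 i j L) :
    L.length ≤ 2 := by
  by_contra hcon
  push Not at hcon
  obtain ⟨v1, v2, v3, L', rfl⟩ : ∃ v1 v2 v3 L', L = v1 :: v2 :: v3 :: L' := by
    rcases L with _ | ⟨v1, _ | ⟨v2, _ | ⟨v3, L'⟩⟩⟩
    · simp at hcon
    · simp at hcon
    · simp at hcon
    · exact ⟨v1, v2, v3, L', rfl⟩
  have hij := h.1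
  have hv1 := h.2.2.1 v1 (by simp)
  rcases L' with _ | ⟨v4, L''⟩
  · have hch := h.2.1.2
    simp only [List.cons_append, List.nil_append, List.isChain_cons_cons,
      List.isChain_singleton, and_true] at hch
    obtain ⟨a1, a2, a3, a4⟩ := hch
    refine window5 i v1 a1 v2 a2 ?_ v3 a3 ?_ ?_ j a4 ?_ ?_ ?_ hij hv1
    · exact no_chord h [] i [v1] v2 [v3, j] (by simp) (by simp)
    · exact no_chord h [] i [v1, v2] v3 [j] (by simp) (by simp)
    · exact no_chord h [i] v1 [v2] v3 [j] (by simp) (by simp)
    · exact no_chord h [] i [v1, v2, v3] j [] (by simp) (by simp)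
    · exact no_chord h [i] v1 [v2, v3] j [] (by simp) (by simp)
    · exact no_chord h [i, v1] v2 [v3] j [] (by simp) (by simp)
  · obtain ⟨v5, Q, hQ⟩ : ∃ v5 Q, L'' ++ [j] = v5 :: Q := by
      rcases L'' with _ | ⟨v5, L3⟩
      · exact ⟨j, [], rfl⟩
      · exact ⟨v5, L3 ++ [j], rfl⟩
    have hl : i :: ((v1 :: v2 :: v3 :: v4 :: L'') ++ [j]) =
        i :: v1 :: v2 :: v3 :: v4 :: v5 :: Q := by
      simp [hQ]
    have hch := h.2.1.2
    have hnd := h.2.1.1
    rw [hl] at hch hnd
    simp only [List.isChain_cons_cons] at hch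
    obtain ⟨a1, a2, a3, a4, a5, -⟩ := hch
    refine window6 i v1 a1 v2 a2 ?_ v3 a3 ?_ ?_ v4 a4 ?_ ?_ ?_ v5 a5 ?_ ?_
    · exact no_chord h [] i [v1] v2 (v3 :: v4 :: v5 :: Q) (by simp) (by rw [hl]; simp)
    · exact no_chord h [] i [v1, v2] v3 (v4 :: v5 :: Q) (by simp) (by rw [hl]; simp)
    · exact no_chord h [i] v1 [v2] v3 (v4 :: v5 :: Q) (by simp) (by rw [hl]; simp)
    · exact no_chord h [] i [v1, v2, v3] v4 (v5 :: Q) (by simp) (by rw [hl]; simp)
    · exact no_chord h [i] v1 [v2, v3] v4 (v5 :: Q) (by simp) (by rw [hl]; simp)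
    · exact no_chord h [i, v1] v2 [v3] v4 (v5 :: Q) (by simp) (by rw [hl]; simp)
    · rintro rfl
      simp at hnd
    · exact no_chord h [i, v1] v2 [v3, v4] v5 Q (by simp) (by rw [hl]; simp)

theorem admissible_4127 : IsAdmissible G9 4 7 [1, 2] := by
  refine ⟨by decide, ⟨by decide, ?_⟩, by decide, ?_⟩
  · simp only [List.cons_append, List.nil_append, List.isChain_cons_cons,
      List.isChain_singleton, and_true]
    decide
  · intro M hM hp
    have hn : M.Nodup := by
      have := hp.1
      rw [List.nodup_cons] at this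
      exact (List.nodup_append.1 this.2).1
    have hcard : M.length < 2 := by
      have h1 := Finset.card_lt_card hM
      rw [List.toFinset_card_of_nodup hn] at h1
      exact h1
    have hsub : ∀ v ∈ M, v = 1 ∨ v = 2 := by
      intro v hv
      have := hM.1 (List.mem_toFinset.2 hv)
      simpa using this
    rcases M with _ | ⟨a, _ | ⟨b, M⟩⟩
    · have := hp.2
      simp only [List.nil_append, List.isChain_cons_cons, List.isChain_singleton,
        and_true] at this
      exact absurd this (by decide)
    · have := hp.2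
      simp only [List.cons_append, List.nil_append, List.isChain_cons_cons,
        List.isChain_singleton, and_true] at this
      rcases hsub a (by simp) with rfl | rfl
      · exact absurd this (by decide)
      · exact absurd this (by decide)
    · simp at hcard

theorem isGreatest_four : IsGreatest (admissibleLengths G9) 4 := by
  constructor
  · exact ⟨4, 7, [1, 2], admissible_4127, rfl⟩
  · rintro l ⟨i, j, L, h, rfl⟩
    have := admissible_length i j L h
    omega

end Q37.BinReg
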